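import Pool.Agent.W_448L1_h63.LaE

/-!
A counting inequality for the components with three sites at the window j (MP_448cb3_co, case B):
the shares of the labels in the far and single elements.
-/

namespace Pool.Agent.GaussPoset.Win.K2

set_option linter.unusedSectionVars false

open Finset I2

universe u

variable {P : Type u} [Fintype P] [PartialOrder P] [DecidableEq P] {r i : ℕ} {e : P → ℕ}

variable {ι : Type*} [DecidableEq ι] {κ : P → ι} {K : Finset P} {psi : P → P}

variable {T : Finset ι}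

open Classical in
/-- the remainder of an element in the order bound -/
noncomputable def wr (i : ℕ) (e : P → ℕ) (x : P) : ℤ :=
  2 * (e x : ℤ) - (if x ∈ DxD i e then 2 else 0) - ch i e x

open Classical in
/-- the shares of the labels in the far and single elements -/
noncomputable def fR (i : ℕ) (κ : P → ι) (e : P → ℕ) (a : ι) (x : P) : ℕ :=
  if Rtd i κ e a x then 2
  else if (∀ b, ¬ Rtd i κ e b x) ∧ ∃ p ∈ uc x, κ p = a then 1 else 0

section pt

variable (H : Gr P r) (hir : i ≤ r) (hq : NoQ P (i + 2)) (hg : ∀ m, m + 1 = i → Good P m)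
include H hir hq hg

lemma wr_nonneg (hL : AdmL i e) (x : P) : 0 ≤ wr i e x := by
  classical
  unfold wr
  split_ifs with h
  · have h1 := mem_DxD.1 h
    have h2 := (ch_le_D H hir hq hg hL h1.1 h1.2).1
    linarith
  · have h2 := ch_le H hir hq hg (e := e) x
    linarith

lemma wr_one (hL : AdmL i e) (hU : AdmU i e) {x : P} (h0 : 1 ≤ e x) (hD : x ∉ DxD i e)
    (hb : x ∉ bN i e) : 1 ≤ wr i e x := by
  classical
  unfold wr
  rw [if_neg hD]
  have h2 := ch_le_one H hir hq hg hL hU h0 hb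
  linarith

lemma sum_wr (hL : AdmL i e) (hU : AdmU i e) :
    ∑ x, wr i e x = 2 * ((∑ x, e x : ℕ) : ℤ) - 2 * ((DxD i e).card : ℤ) -
      (2 * (((AL i e).card : ℤ) + (AU i e).card) - 2 * ((pL i e : ℤ) + pU i e)) := by
  classical
  unfold wr
  rw [Finset.sum_sub_distrib, Finset.sum_sub_distrib, ← Finset.mul_sum, Finset.sum_ite_mem,
    univ_inter, Finset.sum_const, nsmul_eq_mul, sum_ch H hir hq hg hL hU]
  push_cast
  ring

end pt

lemma fR_le (H : Gr P r) (hκ : Split (i + 1) κ) (hq : NoQ P (i + 2)) (hL : AdmL i e) (x : P) :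
    ∑ a ∈ T, fR i κ e a x ≤ 2 := by
  classical
  by_cases h : ∃ b, Rtd i κ e b x
  · obtain ⟨b, hb⟩ := h
    have h1 : ∀ a ∈ T, fR i κ e a x ≤ if a = b then 2 else 0 := by
      intro a _
      unfold fR
      by_cases hab : a = b
      · rw [if_pos hab]
        split_ifs <;> omega
      · have h2 : ¬ Rtd i κ e a x := fun h3 => hab (Rtd_inj H hκ hq hL h3 hb)
        have h4 : ¬ ((∀ b, ¬ Rtd i κ e b x) ∧ ∃ p ∈ uc x, κ p = a) := fun h5 => h5.1 b hb
        rw [if_neg h2, if_neg h4]
        exact Nat.zero_le _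
    refine (Finset.sum_le_sum h1).trans ?_
    rw [Finset.sum_ite_eq']
    split_ifs <;> omega
  · push Not at h
    have h1 : ∀ a ∈ T, fR i κ e a x ≤ if a ∈ (uc x).image κ then 1 else 0 := by
      intro a _
      unfold fR
      rw [if_neg (h a)]
      by_cases h2 : ∃ p ∈ uc x, κ p = a
      · obtain ⟨p, hp, hpa⟩ := h2
        rw [if_pos ⟨h, p, hp, hpa⟩, if_pos (mem_image.2 ⟨p, hp, hpa⟩)]
      · rw [if_neg (fun h3 => h2 h3.2)]
        exact Nat.zero_le _
    refine (Finset.sum_le_sum h1).trans ?_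
    rw [Finset.sum_ite_mem, Finset.sum_const, smul_eq_mul, mul_one]
    exact (card_le_card inter_subset_right).trans (card_image_le.trans (uc_card_le H x))

lemma fR_two (H : Gr P r) (hκ : Split (i + 1) κ) (hL : AdmL i e) {a : ι}
    (ha : Tou i κ e a) : 2 ≤ ∑ x ∈ DxD i e, fR i κ e a x := by
  classical
  obtain ⟨x, hx, hr⟩ := Rtd_ex H hκ hL ha
  have h1 : fR i κ e a x = 2 := by
    unfold fR
    rw [if_pos hr]
  rw [← h1]
  exact Finset.single_le_sum (f := fun x => fR i κ e a x) (fun _ _ => Nat.zero_le _) hx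

lemma fR_three (H : Gr P r) (hκ : Split (i + 1) κ) (hL : AdmL i e) {a : ι}
    (ha : Tou i κ e a) {q p : P} (hqD : q ∈ DxD i e) (hno : ∀ b, ¬ Rtd i κ e b q)
    (hp : p ∈ uc q) (hpa : κ p = a) : 3 ≤ ∑ x ∈ DxD i e, fR i κ e a x := by
  classical
  obtain ⟨x, hx, hr⟩ := Rtd_ex H hκ hL ha
  have h1 : fR i κ e a x = 2 := by
    unfold fR
    rw [if_pos hr]
  have h2 : fR i κ e a q = 1 := by
    unfold fR
    rw [if_neg (hno a), if_pos ⟨hno, p, hp, hpa⟩]
  have hne : x ≠ q := by
    rintro rfl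
    exact hno a hr
  have h3 : ∑ y ∈ ({x, q} : Finset P), fR i κ e a y = 3 := by
    rw [Finset.sum_pair hne, h1, h2]
  rw [← h3]
  refine Finset.sum_le_sum_of_subset ?_
  intro y hy
  rw [mem_insert, mem_singleton] at hy
  rcases hy with rfl | rfl
  · exact hx
  · exact hqD

section loc

variable (H : Gr P r) (hir : i ≤ r) (hq : NoQ P (i + 2)) (hg : ∀ m, m + 1 = i → Good P m)
  (hκ : Split (i + 1) κ)
include H hir hq hg

omit H in
lemma bad_lev (H : Gr P r) {x : P} (h : x ∈ bN i e) : lev x = i + 1 ∨ lev x + 1 = i := by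
  unfold bN at h
  rcases mem_union.1 h with h | h
  · exact Or.inl (bL_data H hir hq hg h).1
  · exact Or.inr (bU_data H hir hq hg h).1

/-- a bad element is not next to the site of an excited single element -/
lemma bad_single (hd : Disjoint (AL i e) (AU i e)) {v k : P}
    (hlv : lev v = i + 1) (hcv : (uc v).card = 1) (hev : 1 ≤ e v) (hk : k ∈ bN i e)
    (hs : ∀ x ∈ uc v, e x = 0) : Disjoint (ns i k) (uc v) := by
  rw [disjoint_left]
  intro q hq1 hq2
  have hl := lev_uc H hq2
  have hq0 := hs q hq2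
  unfold bN at hk
  rcases mem_union.1 hk with h | h
  · obtain ⟨k1, k2, k3, k4, -, k6⟩ := bL_data H hir hq hg h
    have h1 := k6 q hq1 hq0
    have h2 : v ∈ kr dc e q := mem_kr.2 ⟨mem_dc.2 (mem_uc.1 hq2), by omega⟩
    rw [h1, mem_singleton] at h2
    rw [h2] at hcv
    omega
  · obtain ⟨k1, k2, k3, k4, -, -⟩ := bU_data H hir hq hg h
    rw [k4] at hq1
    have h4 : q ∈ AL i e := by
      rw [NormD_mem_AL]
      exact ⟨by omega, v, mem_uc.1 hq2, by omega⟩
    have h5 : q ∈ AU i e := by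
      rw [NormD_mem_AU]
      exact ⟨by omega, k, mem_dc.1 hq1, by omega⟩
    exact disjoint_left.1 hd h4 h5

include hκ

/-- THE LOCAL INEQUALITY for a touched label with three sites -/
theorem loc_S0 {t : ι} (h3 : (st i (cext (i + 1) κ t)).card ≤ 3)
    (hli : ∀ z y v, SD i κ z y v → κ v = t → ∀ k ∈ K, κ k = t → ¬ Disjoint (ns i k) (uc v))
    (hK : K ⊆ dbL P i ∪ dbU P i)
    (ht : Tou i κ e t) (hL : AdmL i e) (hU : AdmU i e) (hd : Disjoint (AL i e) (AU i e))
    {XL XU : Finset P} (hXL : ∀ x ∈ XL, lev x = i ∧ 1 ≤ e x)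
    (hXU : ∀ x ∈ XU, lev x = i ∧ 1 ≤ e x)
    (hs : ((KB i K e).filter (fun x => κ x = t)).card + (XL.filter (fun x => κ x = t)).card +
      (XU.filter (fun x => κ x = t)).card ≤
        ∑ x ∈ (lv P i).filter (fun x => κ x = t), e x + 1) :
    2 * ((((KB i K e).filter (fun x => κ x = t)).card + (XL.filter (fun x => κ x = t)).card +
      (XU.filter (fun x => κ x = t)).card : ℕ) : ℤ) + 1 ≤
      ∑ x ∈ univ.filter (fun x => lev x ≤ i + 1 ∧ κ x = t), wr i e x +
        2 * ((∑ x ∈ (lv P i).filter (fun x => κ x = t), e x : ℕ) : ℤ) +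
        ((∑ x ∈ DxD i e, fR i κ e t x : ℕ) : ℤ) := by
  classical
  have hW : 0 ≤ ∑ x ∈ univ.filter (fun x => lev x ≤ i + 1 ∧ κ x = t), wr i e x :=
    Finset.sum_nonneg fun x _ => wr_nonneg H hir hq hg hL x
  have hf2 := fR_two H hκ hL ht
  by_cases hA : ∃ x, lev x ≤ i + 1 ∧ κ x = t ∧ 1 ≤ e x ∧ x ∉ DxD i e ∧ x ∉ bN i e
  · obtain ⟨x, x1, x2, x3, x4, x5⟩ := hA
    have h1 : wr i e x ≤ ∑ x ∈ univ.filter (fun x => lev x ≤ i + 1 ∧ κ x = t), wr i e x :=
      Finset.single_le_sum (f := fun x => wr i e x) (fun x _ => wr_nonneg H hir hq hg hL x)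
        (mem_filter.2 ⟨mem_univ x, x1, x2⟩)
    have h2 := wr_one H hir hq hg hL hU x3 x4 x5
    omega
  push Not at hA
  have hsite : ∀ x, lev x = i → κ x = t → e x = 0 := by
    intro x hx hxt
    by_contra hne
    have hD : x ∉ DxD i e := by
      rw [mem_DxD]
      rintro ⟨-, h⟩
      unfold Dp at h
      omega
    have h1 := hA x (by omega) hxt (by omega) hD
    have := bad_lev hir hq hg H h1
    omega
  have hs0 : ∑ x ∈ (lv P i).filter (fun x => κ x = t), e x = 0 := by
    refine Finset.sum_eq_zero fun x hx => ?_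
    rw [mem_filter, mem_lv] at hx
    exact hsite x hx.1 hx.2
  have hXL0 : XL.filter (fun x => κ x = t) = ∅ := by
    rw [Finset.filter_eq_empty_iff]
    intro x hx hxt
    obtain ⟨l1, l2⟩ := hXL x hx
    have := hsite x l1 hxt
    omega
  have hXU0 : XU.filter (fun x => κ x = t) = ∅ := by
    rw [Finset.filter_eq_empty_iff]
    intro x hx hxt
    obtain ⟨l1, l2⟩ := hXU x hx
    have := hsite x l1 hxt
    omega
  rw [hXL0, hXU0, card_empty] at hs ⊢
  rw [hs0] at hs ⊢
  by_cases hk0 : (KB i K e).filter (fun x => κ x = t) = ∅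
  · rw [hk0, card_empty]
    omega
  obtain ⟨ka, hka⟩ := Finset.nonempty_iff_ne_empty.2 hk0
  rw [mem_filter] at hka
  obtain ⟨hkB, hkt⟩ := hka
  have hkb : ka ∈ K ∧ ka ∈ bN i e := by
    rw [mem_KB] at hkB
    refine ⟨hkB.1, ?_⟩
    unfold bN
    rcases hkB.2 with h | h
    · exact mem_union_left _ h.1
    · exact mem_union_right _ h.1
  obtain ⟨q, p, q1, q2, q3, q4, q5⟩ := touch_q H hκ hL ht
  -- the double elements of the label are bad
  have hdb : ∀ y ∈ uc q, κ y = t → (uc y).card ≠ 2 := by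
    intro y hy hyt hc
    have hly := lev_uc H hy
    have hey := exc_le H hL q2 (mem_uc.1 hy).le (by omega)
    have hD : y ∉ DxD i e := by
      rw [mem_DxD]
      rintro ⟨-, h⟩
      unfold Dp at h
      rcases h with h | h <;> omega
    have hyb := hA y (by omega) hyt hey hD
    have hne : ka ≠ y := by
      rintro rfl
      rw [mem_KB] at hkB
      rcases hkB.2 with ⟨-, h⟩ | ⟨h, -⟩
      · have := h q (mem_dc.2 (mem_uc.1 hy))
        omega
      · have := (bU_data H hir hq hg h).1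
        omega
    have e1 := EK.ns_sites H hκ (hK hkb.1) hkt
    have hny : ns i y = uc y := by unfold ns; rw [if_pos (by omega)]
    have e2 : ns i y ⊆ st i (cext (i + 1) κ t) := by
      intro x hx
      have h5 := ns_lab H hir hq hg hκ hyb hx
      rw [EK.mem_sites hκ]
      exact ⟨(bN_data H hir hq hg hyb).2.2.2 x hx, by rw [h5, hyt]⟩
    have c1 := (bN_data H hir hq hg hkb.2).1
    have c2 := (bN_data H hir hq hg hyb).1
    have u1 := card_le_card (union_subset e1 e2)
    have u2 := card_union_add_card_inter (ns i ka) (ns i y)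
    have u3 : 0 < (ns i ka ∩ ns i y).card := by omega
    obtain ⟨x, hx⟩ := card_pos.1 u3
    rw [mem_inter] at hx
    refine bad_disj H hir hq hg hd hkb.2 hyb hne hx.1 hx.2 ?_
    have h6 := (EK.mem_sites hκ).1 (e1 hx.1)
    exact hsite x h6.1 h6.2
  have hpc : ∀ y ∈ uc q, κ y = t → (uc y).card = 1 := by
    intro y hy hyt
    have h1 := uc_card_le H y
    have h2 : 0 < (uc y).card := card_pos.2 (uc_nonempty H (by have := lev_uc H hy; omega))
    have := hdb y hy hyt
    omega
  have hp1 := hpc p q3 q5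
  have hep := exc_le H hL q2 (mem_uc.1 q3).le (by omega)
  -- the element is not joined with a double element
  have hall : ∀ y ∈ uc q, (uc y).card = 1 := by
    intro y hy
    by_contra hy1
    have hyt : κ y ≠ t := fun h => hy1 (hpc y hy h)
    have hcy : (uc y).card = 2 := by
      have h1 := uc_card_le H y
      have h2 : 0 < (uc y).card := card_pos.2 (uc_nonempty H (by have := lev_uc H hy; omega))
      omega
    have hk : κ y ≠ κ p := by rw [q5]; exact hyt
    have huc := uc_pair H hy q3 (fun h => hk (by rw [h]))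
    refine hli q y p ⟨q1, huc, hk, hcy, hp1⟩ q5 ka hkb.1 hkt ?_
    refine bad_single H hir hq hg hd q4 hp1 hep hkb.2 ?_
    intro x hx
    have hlx := lev_uc H hx
    refine hsite x (by omega) ?_
    rw [← hκ (mem_uc.1 hx) (by omega)]
    exact q5
  have hno : ∀ b, ¬ Rtd i κ e b q := by
    rintro b (⟨h1, -, -, -⟩ | ⟨-, -, ⟨y, h3, h4, h5⟩, h6⟩)
    · omega
    · have := h6 y h4 (hall y h3) h5
      have hey := exc_le H hL q2 (mem_uc.1 h3).le (by omega)
      omega
  have hf3 := fR_three H hκ hL ht (mem_DxD.2 ⟨q2, Or.inl (by omega)⟩) hno q3 q5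
  omega

end loc

end Pool.Agent.GaussPoset.Win.K2
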