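import Pool.Agent.W_448L2_h63.CaA

/-!
A counting inequality for the components with three sites at the window j (MP_448cb3_co, case B):
the crude bound for a component.
-/

namespace Pool.Agent.GaussPoset.Win.K2

set_option linter.unusedSectionVars false

open Finset I2

universe u

variable {P : Type u} [Fintype P] [PartialOrder P] [DecidableEq P] {r i : ℕ} {e : P → ℕ}

variable {ι : Type*} [DecidableEq ι] {κ : P → ι} {K : Finset P} {psi : P → P}

variable {T : Finset ι}

/-- the count of the bad elements and of the full sites of any label -/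
theorem crude (H : Gr P r) (hir : i ≤ r) (hq : NoQ P (i + 2))
    (hg : ∀ m, m + 1 = i → Good P m) (hκ : Split (i + 1) κ) (hM : Mat P i K psi) {a : ι}
    (hd : Disjoint (AL i e) (AU i e)) {XL XU : Finset P}
    (hXL : ∀ x ∈ XL, lev x = i ∧ 1 ≤ e x ∧ (∃ y, y ∈ dc x) ∧
        ∀ y ∈ dc x, y ∈ bL i e ∧ ∃ z ∈ dc y, 1 ≤ e z)
    (hXU : ∀ x ∈ XU, lev x = i ∧ 1 ≤ e x ∧ (∃ y, y ∈ uc x) ∧
        ∀ y ∈ uc x, y ∈ bU i e ∧ ∃ z ∈ uc y, 1 ≤ e z) :
    ((KB i K e).filter (fun x => κ x = a)).card + (XL.filter (fun x => κ x = a)).card +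
      (XU.filter (fun x => κ x = a)).card ≤ ∑ x ∈ (lv P i).filter (fun x => κ x = a), e x +
        (K.filter (fun x => κ x = a)).card := by
  classical
  have hlab : ∀ {k x : P}, k ∈ bN i e → x ∈ ns i k → κ x = κ k := fun hk hx =>
    ns_lab H hir hq hg hκ hk hx
  have bLN : ∀ y ∈ bL i e, y ∈ bN i e := fun y hy => mem_union_left _ hy
  have bUN : ∀ y ∈ bU i e, y ∈ bN i e := fun y hy => mem_union_right _ hy
  obtain ⟨XA, hXA⟩ : ∃ XA : Finset P, XA = XL.filter (fun x => κ x = a) := ⟨_, rfl⟩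
  obtain ⟨YA, hYA⟩ : ∃ YA : Finset P, YA = XU.filter (fun x => κ x = a) := ⟨_, rfl⟩
  have mXA : ∀ {x : P}, x ∈ XA ↔ x ∈ XL ∧ κ x = a := by intro x; rw [hXA, mem_filter]
  have mYA : ∀ {x : P}, x ∈ YA ↔ x ∈ XU ∧ κ x = a := by intro x; rw [hYA, mem_filter]
  rw [← hXA, ← hYA]
  have hUn : ∀ x ∈ XA ∪ YA, (lev x = i ∧ 1 ≤ e x) ∧ κ x = a := by
    intro x hx
    rcases mem_union.1 hx with h | h
    · have h := mXA.1 h
      exact ⟨⟨(hXL x h.1).1, (hXL x h.1).2.1⟩, h.2⟩
    · have h := mYA.1 h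
      exact ⟨⟨(hXU x h.1).1, (hXU x h.1).2.1⟩, h.2⟩
  have hsum : (XA ∪ YA).card ≤ ∑ x ∈ (lv P i).filter (fun x => κ x = a), e x := by
    rw [Finset.card_eq_sum_ones]
    refine le_trans (Finset.sum_le_sum (g := fun x => e x) fun x hx => (hUn x hx).1.2) ?_
    exact Finset.sum_le_sum_of_subset fun x hx =>
      mem_filter.2 ⟨mem_lv.2 (hUn x hx).1.1, (hUn x hx).2⟩
  have hcu := Finset.card_union_add_card_inter XA YA
  -- the elements of `K` below the doubly full sites
  have hYx : ∀ x ∈ XA ∩ YA, ∃ y, y ∈ K ∧ y ∈ bN i e ∧ x ∈ ns i y ∧ κ y = a ∧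
      y ∉ KB i K e := by
    intro x hx
    rw [mem_inter, mXA, mYA] at hx
    obtain ⟨l1, x1, ⟨y, hy⟩, hxL⟩ := hXL x hx.1.1
    obtain ⟨-, -, ⟨w, hw⟩, hxU⟩ := hXU x hx.2.1
    have hyb := (hxL y hy).1
    obtain ⟨y1, y2, -, y4, -, -⟩ := bL_data H hir hq hg hyb
    have hxy : x ∈ ns i y := by rw [y4]; exact mem_uc.2 (mem_dc.1 hy)
    have hyK : y ∈ K := by
      by_contra hyK
      obtain ⟨p1, p2, -, p4⟩ := psi_low hM (mem_dbL'.2 ⟨y1, y2⟩) hyK
      have hl := mem_dbU'.1 p1
      have q1 : psi y ∈ uc x := by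
        rw [mem_uc, ← mem_dc, p2, ← y4]
        exact hxy
      have q3 : ns i (psi y) = ns i y := by
        rw [y4, ← p2]
        unfold ns
        rw [if_neg (by omega)]
      have h5 := (hxU _ q1).1
      refine bad_ns_ne H hir hq hg hd (bUN _ h5) (bLN y hyb) ?_ q3
      intro h6
      have h7 := (bU_data H hir hq hg h5).1
      rw [h6] at h7
      omega
    refine ⟨y, hyK, bLN y hyb, hxy, by rw [← hlab (bLN y hyb) hxy, hx.1.2], ?_⟩
    intro h8
    rw [mem_KB] at h8
    rcases h8.2 with ⟨-, h0⟩ | ⟨h0, -⟩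
    · obtain ⟨z, hz, hz1⟩ := (hxL y hy).2
      have := h0 z hz
      omega
    · have := (bU_data H hir hq hg h0).1
      omega
  have hinj : (XA ∩ YA).card ≤ (K.filter (fun x => κ x = a) \
      (KB i K e).filter (fun x => κ x = a)).card := by
    refine Finset.card_le_card_of_forall_subsingleton (fun x y => y ∈ bN i e ∧ x ∈ ns i y)
      ?_ ?_
    · intro x hx
      obtain ⟨y, y1, y2, y3, y4, y5⟩ := hYx x hx
      refine ⟨y, ?_, y2, y3⟩
      rw [mem_sdiff, mem_filter, mem_filter]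
      exact ⟨⟨y1, y4⟩, fun h => y5 h.1⟩
    · intro y _ x hx x' hx'
      obtain ⟨hx0, hb, hx1⟩ := hx
      obtain ⟨hx0', -, hx1'⟩ := hx'
      have e1 : 1 ≤ e x := (hUn x (mem_union_left _ (mem_inter.1 hx0).1)).1.2
      have e1' : 1 ≤ e x' := (hUn x' (mem_union_left _ (mem_inter.1 hx0').1)).1.2
      obtain ⟨s, -, s0, hs⟩ := bad_two H hir hq hg hb hx1 e1
      rcases hs x' hx1' with h | h
      · exact h.symm
      · rw [h] at e1'
        omega
  have hsub : (KB i K e).filter (fun x => κ x = a) ⊆ K.filter (fun x => κ x = a) := by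
    intro x hx
    rw [mem_filter, mem_KB] at hx
    exact mem_filter.2 ⟨hx.1.1, hx.2⟩
  have h9 := card_sdiff_add_card_eq_card hsub
  omega

section main

variable (H : Gr P r) (hir : i ≤ r) (hq : NoQ P (i + 2)) (hg : ∀ m, m + 1 = i → Good P m)
  (hκ : Split (i + 1) κ) (hM : Mat P i K psi) (hK : K ⊆ dbL P i ∪ dbU P i)
include H hir hq hg hκ hM

/-- THE INEQUALITY FOR ONE LABEL of any kind -/
theorem own6 {a : ι} {C : ℕ} (h6 : (K.filter (fun x => κ x = a)).card ≤ C)
    (hs : ∀ x, lev x ≤ i + 1 → 1 ≤ e x → κ x = a)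
    (hL : AdmL i e) (hU : AdmU i e) (hd : Disjoint (AL i e) (AU i e)) :
    6 * ((AL i e).card + (AU i e).card) ≤
      4 * ∑ x, e x + 6 * (pL i e + pU i e) + 2 * (SK i K psi e).card + 2 * C := by
  classical
  obtain ⟨XL, XU, hXL, hXU, h1⟩ := main_K hM H hir hq hg hL hU hd (δ := 0) (Or.inl rfl)
  have h2 := crude H hir hq hg hκ hM (a := a) hd hXL hXU
  have f1 : (KB i K e).filter (fun x => κ x = a) = KB i K e := by
    rw [Finset.filter_eq_self]
    intro k hk
    rw [mem_KB] at hk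
    have h4 : k ∈ bN i e := by
      unfold bN
      rcases hk.2 with h | h
      · exact mem_union_left _ h.1
      · exact mem_union_right _ h.1
    exact hs k (lev_bN H hir hq hg h4) (by have := (bN_data H hir hq hg h4).2.1; omega)
  have f2 : XL.filter (fun x => κ x = a) = XL := by
    rw [Finset.filter_eq_self]
    intro x hx
    obtain ⟨l1, l2, -, -⟩ := hXL x hx
    exact hs x (by omega) l2
  have f3 : XU.filter (fun x => κ x = a) = XU := by
    rw [Finset.filter_eq_self]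
    intro x hx
    obtain ⟨l1, l2, -, -⟩ := hXU x hx
    exact hs x (by omega) l2
  rw [f1, f2, f3] at h2
  have h5 : ∑ x ∈ (lv P i).filter (fun x => κ x = a), e x ≤ ∑ x ∈ lv P i, e x :=
    Finset.sum_le_sum_of_subset (filter_subset _ _)
  have h6' : ∑ x, e x = ∑ x ∈ lS P i, e x + ∑ x ∈ uS P i, e x + ∑ x ∈ lv P i, e x := by
    have h6 : (univ : Finset P) = (lS P i ∪ uS P i) ∪ lv P i := by
      ext x
      simp only [mem_univ, mem_union, mem_lS, mem_uS, mem_lv, true_iff]
      omega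
    rw [h6, Finset.sum_union, Finset.sum_union]
    · rw [disjoint_left]
      intro x hx hx'
      rw [mem_lS] at hx
      rw [mem_uS] at hx'
      omega
    · rw [disjoint_left]
      intro x hx hx'
      rw [mem_union, mem_lS, mem_uS] at hx
      rw [mem_lv] at hx'
      omega
  have h7 := ord_le H hir hq hg hL hU (D := ∅) (fun x hx => absurd hx (notMem_empty x))
  rw [card_empty] at h7
  omega

include hK

/-- THE COUNTING INEQUALITY for a configuration whose labels are touched: `P6` are the labels with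
at most `C` unmatched elements, `S0` are labels with three sites whose single elements have light
joins only, the other labels have a star -/
theorem cross6c {S0 P6 : Finset ι} {C : ℕ}
    (hst : ∀ a ∈ T, a ∉ P6 → Star i (cext (i + 1) κ a) K)
    (h6 : ∀ a ∈ P6, (K.filter (fun x => κ x = a)).card ≤ C)
    (h06 : Disjoint S0 P6)
    (h3 : ∀ a ∈ S0, (st i (cext (i + 1) κ a)).card ≤ 3)
    (hli : ∀ a ∈ S0, ∀ z y v, SD i κ z y v → κ v = a → ∀ k ∈ K, κ k = a →
      ¬ Disjoint (ns i k) (uc v))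
    (hs : ∀ x, lev x ≤ i + 1 → 1 ≤ e x → κ x ∈ T) (hT : ∀ a ∈ T, Tou i κ e a)
    (hL : AdmL i e) (hU : AdmU i e) (hd : Disjoint (AL i e) (AU i e)) :
    6 * ((AL i e).card + (AU i e).card) + (S0 ∩ T).card ≤
      4 * ∑ x, e x + 6 * (pL i e + pU i e) + 2 * (SK i K psi e).card +
        2 * C * (P6 ∩ T).card := by
  classical
  obtain ⟨XL, XU, hXL, hXU, h1⟩ := main_K hM H hir hq hg hL hU hd (δ := 0) (Or.inl rfl)
  -- names
  obtain ⟨kx, hkx⟩ : ∃ kx : ι → ℕ, ∀ a, kx a = ((KB i K e).filter (fun x => κ x = a)).card +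
    (XL.filter (fun x => κ x = a)).card + (XU.filter (fun x => κ x = a)).card :=
    ⟨_, fun _ => rfl⟩
  obtain ⟨sa, hsa⟩ : ∃ sa : ι → ℕ, ∀ a, sa a = ∑ x ∈ (lv P i).filter (fun x => κ x = a), e x :=
    ⟨_, fun _ => rfl⟩
  obtain ⟨W, hW⟩ : ∃ W : ι → ℤ, ∀ a, W a =
    ∑ x ∈ univ.filter (fun x => lev x ≤ i + 1 ∧ κ x = a), wr i e x := ⟨_, fun _ => rfl⟩
  obtain ⟨ph, hph⟩ : ∃ ph : ι → ℕ, ∀ a, ph a = ∑ x ∈ DxD i e, fR i κ e a x :=
    ⟨_, fun _ => rfl⟩
  have hW0 : ∀ a, 0 ≤ W a := by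
    intro a
    rw [hW]
    exact Finset.sum_nonneg fun x _ => wr_nonneg H hir hq hg hL x
  have claim : ∀ a ∈ T, 2 * ((kx a : ℕ) : ℤ) + (if a ∈ S0 then 1 else 0) ≤
      W a + 2 * ((sa a : ℕ) : ℤ) + ((ph a : ℕ) : ℤ) + (if a ∈ P6 then 2 * (C : ℤ) else 0) := by
    intro a ha
    by_cases hp : a ∈ P6
    · have hs0 : a ∉ S0 := fun h => disjoint_left.1 h06 h hp
      rw [if_neg hs0, if_pos hp]
      have h4 := crude H hir hq hg hκ hM (a := a) hd hXL hXU
      rw [← hkx, ← hsa] at h4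
      have h5 := h6 a hp
      have h7 := hW0 a
      omega
    · have h4 := star_loc H hir hq hg hκ hM (hst a ha hp) hd hXL hXU
      rw [if_neg hp]
      by_cases hs0 : a ∈ S0
      · rw [if_pos hs0]
        have h5 := loc_S0 H hir hq hg hκ (K := K) (h3 a hs0) (hli a hs0) hK (hT a ha) hL hU hd
          (fun x hx => ⟨(hXL x hx).1, (hXL x hx).2.1⟩)
          (fun x hx => ⟨(hXU x hx).1, (hXU x hx).2.1⟩) h4
        rw [← hkx, ← hsa, ← hW, ← hph] at h5
        omega
      · rw [if_neg hs0]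
        rw [← hkx, ← hsa] at h4
        have h5 := fR_two H hκ hL (hT a ha)
        rw [← hph] at h5
        have h7 := hW0 a
        omega
  have hsumT : ∀ S : Finset P, (∀ x ∈ S, κ x ∈ T) →
      ∑ a ∈ T, (S.filter (fun x => κ x = a)).card = S.card := by
    intro S hS
    exact (Finset.card_eq_sum_card_fiberwise hS).symm
  have hKB : ∀ x ∈ KB i K e, κ x ∈ T := by
    intro k hk
    rw [mem_KB] at hk
    have h4 : k ∈ bN i e := by
      unfold bN
      rcases hk.2 with h | h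
      · exact mem_union_left _ h.1
      · exact mem_union_right _ h.1
    exact hs k (lev_bN H hir hq hg h4) (by have := (bN_data H hir hq hg h4).2.1; omega)
  have hXLT : ∀ x ∈ XL, κ x ∈ T := by
    intro x hx
    obtain ⟨l1, l2, -, -⟩ := hXL x hx
    exact hs x (by omega) l2
  have hXUT : ∀ x ∈ XU, κ x ∈ T := by
    intro x hx
    obtain ⟨l1, l2, -, -⟩ := hXU x hx
    exact hs x (by omega) l2
  have c1 : ∑ a ∈ T, kx a = (KB i K e).card + XL.card + XU.card := by
    simp only [hkx]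
    rw [Finset.sum_add_distrib, Finset.sum_add_distrib, hsumT _ hKB, hsumT _ hXLT,
      hsumT _ hXUT]
  have c2 : ∑ a ∈ T, sa a ≤ ∑ x ∈ lv P i, e x := by
    simp only [hsa]
    rw [← Finset.sum_biUnion]
    · refine Finset.sum_le_sum_of_subset ?_
      intro x hx
      rw [mem_biUnion] at hx
      obtain ⟨a, -, hx⟩ := hx
      exact (mem_filter.1 hx).1
    · intro a _ b _ hab
      rw [Function.onFun, disjoint_left]
      intro x hx hx'
      exact hab ((mem_filter.1 hx).2.symm.trans (mem_filter.1 hx').2)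
  have c3 : ∑ a ∈ T, W a ≤ ∑ x, wr i e x := by
    simp only [hW]
    rw [← Finset.sum_biUnion]
    · exact Finset.sum_le_sum_of_subset_of_nonneg (subset_univ _)
        (fun x _ _ => wr_nonneg H hir hq hg hL x)
    · intro a _ b _ hab
      rw [Function.onFun, disjoint_left]
      intro x hx hx'
      exact hab ((mem_filter.1 hx).2.2.symm.trans (mem_filter.1 hx').2.2)
  have c4 : ∑ a ∈ T, ph a ≤ 2 * (DxD i e).card := by
    simp only [hph]
    rw [Finset.sum_comm]
    refine (Finset.sum_le_sum (fun x _ => fR_le (T := T) H hκ hq hL x)).trans ?_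
    rw [Finset.sum_const, smul_eq_mul, mul_comm]
  have c5 : ∑ a ∈ T, (if a ∈ S0 then (1 : ℤ) else 0) = ((S0 ∩ T).card : ℤ) := by
    rw [Finset.sum_ite_mem, Finset.sum_const, nsmul_eq_mul, mul_one, inter_comm]
  have c6 : ∑ a ∈ T, (if a ∈ P6 then 2 * (C : ℤ) else 0) = 2 * C * ((P6 ∩ T).card : ℤ) := by
    rw [Finset.sum_ite_mem, Finset.sum_const, nsmul_eq_mul, inter_comm]
    ring
  have h4 := Finset.sum_le_sum claim
  rw [Finset.sum_add_distrib, Finset.sum_add_distrib, Finset.sum_add_distrib,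
    Finset.sum_add_distrib, c5, c6, ← Finset.mul_sum, ← Finset.mul_sum, ← Nat.cast_sum,
    ← Nat.cast_sum, ← Nat.cast_sum, c1] at h4
  have h7 := sum_wr H hir hq hg hL hU
  have h8 : ∑ x, e x = ∑ x ∈ lS P i, e x + ∑ x ∈ uS P i, e x + ∑ x ∈ lv P i, e x := by
    have h6 : (univ : Finset P) = (lS P i ∪ uS P i) ∪ lv P i := by
      ext x
      simp only [mem_univ, mem_union, mem_lS, mem_uS, mem_lv, true_iff]
      omega
    rw [h6, Finset.sum_union, Finset.sum_union]
    · rw [disjoint_left]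
      intro x hx hx'
      rw [mem_lS] at hx
      rw [mem_uS] at hx'
      omega
    · rw [disjoint_left]
      intro x hx hx'
      rw [mem_union, mem_lS, mem_uS] at hx
      rw [mem_lv] at hx'
      omega
  have h9 : ((6 * ((AL i e).card + (AU i e).card) + (S0 ∩ T).card : ℕ) : ℤ) ≤
      ((4 * ∑ x, e x + 6 * (pL i e + pU i e) + 2 * (SK i K psi e).card +
        2 * C * (P6 ∩ T).card : ℕ) : ℤ) := by
    push_cast at h4 h7 ⊢
    have h1' : 2 * (((AL i e).card : ℤ) + (AU i e).card) ≤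
        ∑ x ∈ lS P i, (e x : ℤ) + ∑ x ∈ uS P i, (e x : ℤ) + 2 * ((pL i e : ℤ) + pU i e) +
          (SK i K psi e).card + (KB i K e).card + XL.card + XU.card := by
      have := h1
      zify at this
      linarith
    have h8' : ∑ x, (e x : ℤ) = ∑ x ∈ lS P i, (e x : ℤ) + ∑ x ∈ uS P i, (e x : ℤ) +
        ∑ x ∈ lv P i, (e x : ℤ) := by
      have := h8
      zify at this
      exact this
    have c2' : ∑ a ∈ T, ((sa a : ℕ) : ℤ) ≤ ∑ x ∈ lv P i, (e x : ℤ) := by
      have := c2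
      zify at this
      exact this
    have c4' : ∑ a ∈ T, ((ph a : ℕ) : ℤ) ≤ 2 * ((DxD i e).card : ℤ) := by
      have := c4
      zify at this
      exact this
    linarith
  exact_mod_cast h9

end main

end Pool.Agent.GaussPoset.Win.K2
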